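import Pool.Agent.H.MP_bb77e0_gt.Conc

namespace Pool.Agent.H.MP_de432b_gt
open Set Topology Filter MeasureTheory ProbabilityTheory Pool.Agent.H.MP_3020f5_gt
  Pool.Agent.H.MP_bb77e0_gt

def Half {W X Y : Type*} [MeasurableSpace W] [PseudoMetricSpace X] [PseudoMetricSpace Y]
    (P : Measure W) (φ : W → X) (ψ : W → Y) (ε : ℝ) : Prop :=
  ∀ f : X → ℝ, LipschitzWith 1 f → ∃ g : Y → ℝ, LipschitzWith 1 g ∧
    P.real {s | ε < |f (φ s) - g (ψ s)|} ≤ ε

def GC (A B : MM) (ε : ℝ) : Prop :=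
  0 ≤ ε ∧ ∃ φ ψ, IsParam A φ ∧ IsParam B ψ ∧ Half lam φ ψ ε ∧ Half lam ψ φ ε

theorem Half.comp {A B : MM} {W W' : Type*} [MeasurableSpace W] [MeasurableSpace W']
    {P : Measure W} {φ : W → A.X} {ψ : W → B.X} {ε : ℝ} (h : Half P φ ψ ε) (hφ : Measurable φ)
    (hψ : Measurable ψ) (P' : Measure W') (q : W' → W) (hq : Measurable q) (e : P'.map q = P) :
    Half P' (φ ∘ q) (ψ ∘ q) ε := by
  intro f hf
  obtain ⟨g, hg, h⟩ := h f hf
  refine ⟨g, hg, ?_⟩
  have hm : MeasurableSet {s | ε < |f (φ s) - g (ψ s)|} := measurableSet_lt measurable_const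
    ((hf.continuous.measurable.comp hφ).sub (hg.continuous.measurable.comp hψ)).abs
  rw [← e, map_measureReal_apply hq hm] at h
  exact h

theorem gc_of {A B : MM} {W : Type*} [MeasurableSpace W] [StandardBorelSpace W] (P : Measure W)
    [IsProbabilityMeasure P] (φ : W → A.X) (ψ : W → B.X) (hφ : Measurable φ) (hψ : Measurable ψ)
    (e1 : P.map φ = A.μ) (e2 : P.map ψ = B.μ) {ε : ℝ} (hε : 0 ≤ ε) (h1 : Half P φ ψ ε)
    (h2 : Half P ψ φ ε) : GC A B ε := by
  obtain ⟨θ, hθ, e⟩ := param P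
  exact ⟨hε, φ ∘ θ, ψ ∘ θ, ⟨hφ.comp hθ, by rw [← Measure.map_map hφ hθ, e, e1]⟩,
    ⟨hψ.comp hθ, by rw [← Measure.map_map hψ hθ, e, e2]⟩, h1.comp hφ hψ _ θ hθ e,
    h2.comp hψ hφ _ θ hθ e⟩

theorem dKF_comm (f g : J → ℝ) : dKF f g = dKF g f := by
  unfold dKF
  simp only [abs_sub_comm (f _)]

theorem neL (A : MM) (φ : J → A.X) : Nonempty (LipSet A φ) :=
  ⟨⟨_, fun _ => 0, (LipschitzWith.const 0).weaken zero_le_one, rfl⟩⟩

theorem sup_le {A B : MM} {φ : J → A.X} {ψ : J → B.X} {ε : ℝ} (h0 : 0 ≤ ε) (h : Half lam φ ψ ε) :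
    (⨆ f : LipSet A φ, ⨅ g : LipSet B ψ, dKF f.1 g.1) ≤ ε := by
  haveI := neL A φ
  refine ciSup_le ?_
  rintro ⟨_, f, hf, rfl⟩
  obtain ⟨g, hg, h⟩ := h f hf
  refine (ciInf_le ⟨0, by rintro _ ⟨f, rfl⟩; exact dKF_nonneg _ _⟩ ⟨g ∘ ψ, g, hg, rfl⟩).trans ?_
  exact csInf_le ⟨0, fun _ h => h.1⟩ ⟨h0, h⟩

theorem half_of_lt {A B : MM} {φ : J → A.X} {ψ : J → B.X} {ε : ℝ}
    (h : (⨆ f : LipSet A φ, ⨅ g : LipSet B ψ, dKF f.1 g.1) < ε) : Half lam φ ψ ε := by
  intro f hf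
  haveI := neL B ψ
  have h3 : (⨅ g : LipSet B ψ, dKF (f ∘ φ) g.1) < ε := by
    refine lt_of_le_of_lt ?_ h
    refine le_ciSup (f := fun f : LipSet A φ => ⨅ g : LipSet B ψ, dKF f.1 g.1) ⟨1, ?_⟩
      ⟨f ∘ φ, f, hf, rfl⟩
    rintro _ ⟨g', rfl⟩
    exact (ciInf_le ⟨0, by rintro _ ⟨f, rfl⟩; exact dKF_nonneg _ _⟩ (Classical.arbitrary _)).trans
      (dKF_le_one _ _)
  obtain ⟨⟨_, g, hg, rfl⟩, h4⟩ := exists_lt_of_ciInf_lt h3
  obtain ⟨e, he, h5⟩ := exists_lt_of_csInf_lt ⟨1, kf_one _ _⟩ h4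
  exact ⟨g, hg, (measureReal_mono fun s hs => h5.trans hs).trans (he.2.trans h5.le)⟩

theorem dH_nonneg (F G : Set (J → ℝ)) : 0 ≤ dH F G :=
  le_max_of_le_left (Real.iSup_nonneg fun _ => Real.iInf_nonneg fun _ => dKF_nonneg _ _)

theorem dconc_le {A B : MM} {ε : ℝ} (h : GC A B ε) : dconc A B ≤ ε := by
  obtain ⟨h0, φ, ψ, p1, p2, h1, h2⟩ := h
  have h3 : dconc A B ≤ dH (LipSet A φ) (LipSet B ψ) :=
    csInf_le ⟨0, by rintro _ ⟨_, _, _, _, rfl⟩; exact dH_nonneg _ _⟩ ⟨φ, ψ, p1, p2, rfl⟩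
  refine h3.trans (max_le (sup_le h0 h1) ?_)
  simp only [dKF_comm _ (Subtype.val (_ : LipSet B ψ))]
  exact sup_le h0 h2

theorem gc_of_lt {A B : MM} {ε : ℝ} (h : dconc A B < ε) : GC A B ε := by
  obtain ⟨φ0, hφ0⟩ := param A.μ
  obtain ⟨ψ0, hψ0⟩ := param B.μ
  obtain ⟨r, ⟨φ, ψ, h1, h2, rfl⟩, hr⟩ := exists_lt_of_csInf_lt
    (s := {r | ∃ φ ψ, IsParam A φ ∧ IsParam B ψ ∧ r = dH (LipSet A φ) (LipSet B ψ)})
    ⟨_, φ0, ψ0, hφ0, hψ0, rfl⟩ h
  refine ⟨(dH_nonneg _ _).trans hr.le, φ, ψ, h1, h2, half_of_lt ((le_max_left _ _).trans_lt hr),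
    half_of_lt ?_⟩
  have := (le_max_right _ _).trans_lt hr
  simp only [dKF_comm _ (Subtype.val (_ : LipSet B ψ))] at this
  exact this

theorem le_dconc {A B : MM} {x : ℝ} (h : ∀ ε, GC A B ε → x ≤ ε) : x ≤ dconc A B :=
  le_of_forall_pos_le_add fun δ hδ => h _ (gc_of_lt (by linarith))

theorem dconc_nonneg (A B : MM) : 0 ≤ dconc A B := le_dconc fun _ h => h.1

theorem GC.symm {A B : MM} {ε : ℝ} (h : GC A B ε) : GC B A ε := by
  obtain ⟨h0, φ, ψ, p1, p2, h1, h2⟩ := h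
  exact ⟨h0, ψ, φ, p2, p1, h2, h1⟩

theorem Half.trans {W X Y Z : Type*} [MeasurableSpace W] [PseudoMetricSpace X] [PseudoMetricSpace Y]
    [PseudoMetricSpace Z] {P : Measure W} [IsProbabilityMeasure P] {φ : W → X} {ψ ψ' : W → Y}
    {χ : W → Z} {ε η : ℝ} (h : Half P φ ψ ε) (k : Half P ψ' χ η) (e : ∀ᵐ p ∂P, ψ p = ψ' p) :
    Half P φ χ (ε + η) := by
  intro f hf
  obtain ⟨g, hg, h⟩ := h f hf
  obtain ⟨l, hl, k⟩ := k g hg
  refine ⟨l, hl, ?_⟩
  have e0 : P.real {p | ¬ ψ p = ψ' p} = 0 := by rw [measureReal_def, ae_iff.1 e]; rfl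
  have h1 : P.real {s | ε + η < |f (φ s) - l (χ s)|} ≤ P.real (({s | ε < |f (φ s) - g (ψ s)|} ∪
      {s | η < |g (ψ' s) - l (χ s)|}) ∪ {p | ¬ ψ p = ψ' p}) := by
    refine measureReal_mono fun s hs => ?_
    by_contra hc
    simp only [mem_union, mem_setOf_eq, not_or, not_lt, not_not] at hc hs
    have := abs_sub_le (f (φ s)) (g (ψ s)) (l (χ s))
    rw [← hc.2] at hc
    linarith [hc.1.1, hc.1.2]
  linarith [measureReal_union_le (μ := P) ({s | ε < |f (φ s) - g (ψ s)|} ∪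
      {s | η < |g (ψ' s) - l (χ s)|}) {p | ¬ ψ p = ψ' p},
    measureReal_union_le (μ := P) {s | ε < |f (φ s) - g (ψ s)|} {s | η < |g (ψ' s) - l (χ s)|}]

theorem GC.trans {A B C : MM} {ε η : ℝ} (h : GC A B ε) (h' : GC B C η) : GC A C (ε + η) := by
  obtain ⟨h0, φ, ψ, h1, h2, h3, h4⟩ := h
  obtain ⟨k0, ψ', χ, k1, k2, k3, k4⟩ := h'
  obtain ⟨a1, a2⟩ := cond h2
  obtain ⟨b1, b2⟩ := cond k1
  let γ : Measure (J × J) := (condDistrib id ψ lam ×ₖ condDistrib id ψ' lam) ∘ₘ B.μ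
  have g1 : γ.map Prod.fst = lam := by
    rw [Measure.map_comp _ _ measurable_fst, ← Kernel.fst_eq, Kernel.fst_prod, a1]
  have g2 : γ.map Prod.snd = lam := by
    rw [Measure.map_comp _ _ measurable_snd, ← Kernel.snd_eq, Kernel.snd_prod, b1]
  have hE : MeasurableSet {p : J × J | ψ p.1 = ψ' p.2} :=
    measurableSet_eq_fun (h2.1.comp measurable_fst) (k1.1.comp measurable_snd)
  have g3 : ∀ᵐ p ∂γ, ψ p.1 = ψ' p.2 := by
    apply Measure.ae_comp_of_ae_ae hE
    filter_upwards [a2, b2] with y ha hb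
    rw [Kernel.prod_apply]
    filter_upwards [Measure.quasiMeasurePreserving_fst.ae ha,
      Measure.quasiMeasurePreserving_snd.ae hb] with p p1 p2
    rw [p1, p2]
  refine gc_of γ (φ ∘ Prod.fst) (χ ∘ Prod.snd) (h1.1.comp measurable_fst)
    (k2.1.comp measurable_snd) (by rw [← Measure.map_map h1.1 measurable_fst, g1, h1.2])
    (by rw [← Measure.map_map k2.1 measurable_snd, g2, k2.2]) (add_nonneg h0 k0)
    ((h3.comp h1.1 h2.1 γ _ measurable_fst g1).trans (k3.comp k1.1 k2.1 γ _ measurable_snd g2) g3) ?_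
  rw [add_comm]
  exact (k4.comp k2.1 k1.1 γ _ measurable_snd g2).trans (h4.comp h2.1 h1.1 γ _ measurable_fst g1)
    (g3.mono fun _ h => h.symm)

theorem dconc_comm (A B : MM) : dconc A B = dconc B A :=
  le_antisymm (le_dconc fun _ h => dconc_le h.symm) (le_dconc fun _ h => dconc_le h.symm)

theorem dconc_tri (A B C : MM) : dconc A C ≤ dconc A B + dconc B C := by
  have : dconc A C - dconc B C ≤ dconc A B := le_dconc fun ε h => by
    have : dconc A C - ε ≤ dconc B C := le_dconc fun η h' => by linarith [dconc_le (h.trans h')]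
    linarith
  linarith

theorem half_of {X Y : Type*} [PseudoMetricSpace X] [PseudoMetricSpace Y] {φ : J → X} {ψ : J → Y}
    {ε : ℝ} (h0 : 0 ≤ ε) {S : Set J} (hS : MeasurableSet S) (hm : 1 - ε ≤ lam.real S)
    (hd : ∀ s ∈ S, ∀ t ∈ S, dist (φ s) (φ t) ≤ dist (ψ s) (ψ t) + ε) : Half lam φ ψ ε := by
  intro f hf
  rcases S.eq_empty_or_nonempty with rfl | ⟨t0, ht0⟩
  · refine ⟨fun _ => 0, (LipschitzWith.const 0).weaken zero_le_one, measureReal_le_one.trans ?_⟩
    rw [measureReal_empty] at hm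
    linarith
  haveI : Nonempty S := ⟨⟨t0, ht0⟩⟩
  have hl : ∀ x y, f x - f y ≤ dist x y := fun x y => by
    have := hf.dist_le_mul x y
    rw [Real.dist_eq, NNReal.coe_one, one_mul] at this
    exact (le_abs_self _).trans this
  have hb : ∀ y, BddBelow (range fun s : S => f (φ s) + dist y (ψ s)) := fun y =>
    ⟨f (φ t0) - ε - dist y (ψ t0), by
      rintro _ ⟨s, rfl⟩
      linarith [hl (φ t0) (φ s), hd t0 ht0 s s.2, dist_triangle_left (ψ t0) (ψ s) y]⟩
  refine ⟨fun y => ⨅ s : S, (f (φ s) + dist y (ψ s)), LipschitzWith.of_le_add fun y y' => ?_, ?_⟩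
  · rw [← sub_le_iff_le_add]
    refine le_ciInf fun s => ?_
    linarith [ciInf_le (hb y) s, dist_triangle y y' (ψ s)]
  · refine (measureReal_mono (s₂ := Sᶜ) fun t ht htS => ?_).trans ?_
    · have u1 := ciInf_le (hb (ψ t)) ⟨t, htS⟩
      have u2 : f (φ t) - ε ≤ ⨅ s : S, (f (φ s) + dist (ψ t) (ψ s)) := le_ciInf fun s => by
        linarith [hl (φ t) (φ s), hd t htS s s.2]
      simp only [dist_self, add_zero] at u1
      refine not_le.2 (show ε < _ from ht) (abs_le.2 ⟨?_, ?_⟩) <;> linarith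
    · rw [probReal_compl_eq_one_sub hS]
      linarith

theorem dconc_le_box (A B : MM) : dconc A B ≤ box A B := le_box fun ε h => by
  obtain ⟨h0, φ, ψ, p1, p2, S, hS, hm, hd⟩ := h
  exact dconc_le ⟨h0, φ, ψ, p1, p2,
    half_of h0 hS hm fun s hs t ht => by linarith [(abs_le.1 (hd s hs t ht)).2],
    half_of h0 hS hm fun s hs t ht => by linarith [(abs_le.1 (hd s hs t ht)).1]⟩

theorem side {X Y : Type*} [PseudoMetricSpace X] [PseudoMetricSpace Y] {φ : J → X} {ψ : J → Y}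
    {ε δ : ℝ} (h : Half lam φ ψ ε) (x x' : X) (y y' : Y) (U U' : Set J) (h1 : ε < lam.real U)
    (h2 : ε < lam.real U') (k1 : ∀ s ∈ U, dist (φ s) x < δ ∧ dist (ψ s) y < δ)
    (k2 : ∀ s ∈ U', dist (φ s) x' < δ ∧ dist (ψ s) y' < δ) :
    dist x x' ≤ dist y y' + 4 * δ + 2 * ε := by
  obtain ⟨g, hg, h⟩ := h _ (LipschitzWith.dist_right x)
  obtain ⟨s, s1, s2⟩ := not_subset.1 fun hc => not_le.2 h1 ((measureReal_mono hc).trans h)
  obtain ⟨t, t1, t2⟩ := not_subset.1 fun hc => not_le.2 h2 ((measureReal_mono hc).trans h)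
  have a1 := abs_le.1 (not_lt.1 (show ¬ ε < |dist x (φ s) - g (ψ s)| from s2))
  have a2 := abs_le.1 (not_lt.1 (show ¬ ε < |dist x (φ t) - g (ψ t)| from t2))
  have a3 := hg.dist_le_mul (ψ s) (ψ t)
  rw [Real.dist_eq, NNReal.coe_one, one_mul, abs_le] at a3
  have a4 := dist_triangle4 (ψ s) y y' (ψ t)
  have a5 := dist_triangle x (φ t) x'
  have a6 := k1 s s1
  have a7 := k2 t t1
  rw [dist_comm y' (ψ t)] at a4
  rw [dist_comm (φ s) x] at a6
  linarith [a1.1, a1.2, a2.1, a2.2, a3.1, a3.2, a6.1, a6.2, a7.1, a7.2]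

theorem iso_of_dconc {A B : MM} (h : dconc A B = 0) : Iso A B := by
  have h1 : ∀ n : ℕ, GC A B (1 / ((n : ℝ) + 1)) := fun n => gc_of_lt (by rw [h]; positivity)
  choose h0 φ ψ hφ hψ hA hB using h1
  have hmeas : ∀ n, Measurable fun s => (φ n s, ψ n s) := fun n => (hφ n).1.prodMk (hψ n).1
  let π : ℕ → ProbabilityMeasure (A.X × B.X) := fun n =>
    ⟨lam.map fun s => (φ n s, ψ n s), Measure.isProbabilityMeasure_map (hmeas n).aemeasurable⟩
  have π1 : ∀ n, (π n : Measure (A.X × B.X)).map Prod.fst = A.μ := fun n =>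
    (Measure.map_map measurable_fst (hmeas n)).trans (hφ n).2
  have π2 : ∀ n, (π n : Measure (A.X × B.X)).map Prod.snd = B.μ := fun n =>
    (Measure.map_map measurable_snd (hmeas n)).trans (hψ n).2
  have hK : IsCompact (closure (range π)) := by
    apply isCompact_closure_of_isTightMeasureSet
    apply IsTightMeasureSet.prodMk
    · apply (isTightMeasureSet_singleton (μ := A.μ)).subset
      rintro _ ⟨_, ⟨_, ⟨n, rfl⟩, rfl⟩, rfl⟩
      exact π1 n
    · apply (isTightMeasureSet_singleton (μ := B.μ)).subset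
      rintro _ ⟨_, ⟨_, ⟨n, rfl⟩, rfl⟩, rfl⟩
      exact π2 n
  let U : Ultrafilter ℕ := Ultrafilter.of atTop
  have hU : (U : Filter ℕ) ≤ atTop := Ultrafilter.of_le _
  obtain ⟨P, -, hP⟩ := hK.ultrafilter_le_nhds (U.map π) (by
    rw [le_principal_iff]
    exact Filter.mem_map.2 (univ_mem' fun n => subset_closure ⟨n, rfl⟩))
  have hP' : Tendsto π U (𝓝 P) := hP
  have hε0 : ∀ r : ℝ, 0 < r → ∀ᶠ n : ℕ in (U : Filter ℕ), 1 / ((n : ℝ) + 1) < r := fun r hr =>
    hU (tendsto_one_div_add_atTop_nhds_zero_nat.eventually (gt_mem_nhds hr))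
  have e1 : (P : Measure (A.X × B.X)).map Prod.fst = A.μ := by
    have t1 := ProbabilityMeasure.tendsto_map_of_tendsto_of_continuous π P hP' continuous_fst
    have t2 : (fun n => (π n).map continuous_fst.measurable.aemeasurable) =
        fun _ => (⟨A.μ, A.pr⟩ : ProbabilityMeasure A.X) := funext fun n => Subtype.ext (π1 n)
    rw [t2] at t1
    have t3 := (tendsto_nhds_unique t1 tendsto_const_nhds).symm
    exact (congrArg Subtype.val t3).symm
  have e2 : (P : Measure (A.X × B.X)).map Prod.snd = B.μ := by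
    have t1 := ProbabilityMeasure.tendsto_map_of_tendsto_of_continuous π P hP' continuous_snd
    have t2 : (fun n => (π n).map continuous_snd.measurable.aemeasurable) =
        fun _ => (⟨B.μ, B.pr⟩ : ProbabilityMeasure B.X) := funext fun n => Subtype.ext (π2 n)
    rw [t2] at t1
    have t3 := (tendsto_nhds_unique t1 tendsto_const_nhds).symm
    exact (congrArg Subtype.val t3).symm
  have key : ∀ δ : ℝ, 0 < δ → ∀ z ∈ (P : Measure (A.X × B.X)).support, ∀ᶠ n : ℕ in (U : Filter ℕ),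
      1 / ((n : ℝ) + 1) < lam.real ((fun s => (φ n s, ψ n s)) ⁻¹' Metric.ball z δ) := by
    intro δ hδ z hz
    have p0 := (Measure.mem_support_iff_forall z).1 hz _ (Metric.ball_mem_nhds z hδ)
    have p1 := ProbabilityMeasure.le_liminf_measure_open_of_tendsto hP'
      (Metric.isOpen_ball (x := z) (ε := δ))
    obtain ⟨r, r0, r1⟩ := ENNReal.lt_iff_exists_real_btwn.1 (p0.trans_le p1)
    have r2 : 0 < r := ENNReal.ofReal_pos.1 r1.1
    filter_upwards [eventually_lt_of_lt_liminf r1.2, hε0 r r2] with n k1 k2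
    have k3 : r < (π n : Measure (A.X × B.X)).real (Metric.ball z δ) :=
      (ENNReal.ofReal_lt_iff_lt_toReal r0 (measure_ne_top _ _)).1 k1
    have k4 : (π n : Measure (A.X × B.X)).real (Metric.ball z δ) =
        lam.real ((fun s => (φ n s, ψ n s)) ⁻¹' Metric.ball z δ) :=
      map_measureReal_apply (hmeas n) measurableSet_ball
    linarith
  have h3 : ∀ z ∈ (P : Measure (A.X × B.X)).support, ∀ z' ∈ (P : Measure (A.X × B.X)).support,
      dist z.1 z'.1 = dist z.2 z'.2 := by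
    intro z hz z' hz'
    rw [← sub_eq_zero, ← abs_nonpos_iff]
    refine le_of_forall_pos_le_add fun η hη => ?_
    have hδ : 0 < η / 6 := by positivity
    obtain ⟨n, s, t, k⟩ := ((key _ hδ z hz).and ((key _ hδ z' hz').and (hε0 _ hδ))).exists
    have b : ∀ (w : A.X × B.X), ∀ s ∈ (fun s => (φ n s, ψ n s)) ⁻¹' Metric.ball w (η / 6),
        dist (φ n s) w.1 < η / 6 ∧ dist (ψ n s) w.2 < η / 6 := fun w s hs =>
      max_lt_iff.1 (Metric.mem_ball.1 hs)
    have u1 := side (hA n) z.1 z'.1 z.2 z'.2 _ _ s t (b z) (b z')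
    have u2 := side (hB n) z.2 z'.2 z.1 z'.1 _ _ s t (fun s hs => (b z s hs).symm)
      (fun s hs => (b z' s hs).symm)
    rw [abs_le]
    constructor <;> linarith
  let C : MM := MM.mk (A.X × B.X) (P : Measure (A.X × B.X))
  have i1 : Iso C A := iso_of C A Prod.fst continuous_fst e1 fun z hz z' hz' => by
    show dist z.1 z'.1 = max (dist z.1 z'.1) (dist z.2 z'.2)
    rw [← h3 z hz z' hz', max_self]
  have i2 : Iso C B := iso_of C B Prod.snd continuous_snd e2 fun z hz z' hz' => by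
    show dist z.2 z'.2 = max (dist z.1 z'.1) (dist z.2 z'.2)
    rw [← h3 z hz z' hz', max_self]
  exact i1.symm.trans i2

theorem dconc_iso {A B : MM} (h : Iso A B) : dconc A B = 0 :=
  le_antisymm ((dconc_le_box A B).trans h.box_eq.le) (dconc_nonneg _ _)

/-- The set of mm-isomorphism classes, to carry the observable distance. -/
def XC : Type 1 := Quotient isoSetoid

/-- The class of an mm-space. -/
def clsC (A : MM) : XC := Quotient.mk isoSetoid A

theorem dconc_congr {A A' B B' : MM} (h : Iso A A') (k : Iso B B') : dconc A B = dconc A' B' := by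
  have := dconc_iso h
  have := dconc_iso h.symm
  have := dconc_iso k
  have := dconc_iso k.symm
  apply le_antisymm
  · linarith [dconc_tri A A' B, dconc_tri A' B' B]
  · linarith [dconc_tri A' A B', dconc_tri A B B']

/-- The observable distance between classes. -/
noncomputable def concX : XC → XC → ℝ :=
  Quotient.lift₂ (s₁ := isoSetoid) (s₂ := isoSetoid) dconc fun _ _ _ _ h k => dconc_congr h k

/-- The observable metric on the set of classes; its topology is the concentration topology. -/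
noncomputable instance : MetricSpace XC where
  dist := concX
  dist_self a := Quotient.inductionOn a fun A => dconc_iso (Iso.refl A)
  dist_comm a b := Quotient.inductionOn₂ a b fun A B => dconc_comm A B
  dist_triangle a b c := Quotient.inductionOn₃ a b c fun A B C => dconc_tri A B C
  eq_of_dist_eq_zero {a b} := Quotient.inductionOn₂ a b fun _ _ h => Quotient.sound (iso_of_dconc h)

theorem clsC_surj : Function.Surjective clsC := Quotient.mk_surjective

theorem dist_clsC (A B : MM) : dist (clsC A) (clsC B) = dconc A B := rfl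

end Pool.Agent.H.MP_de432b_gt
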