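import Pool.Agent.H.MP_de432b_gt.GC
import Pool.Agent.H.MP_de432b_gt.Abs

namespace Pool.Agent.H.MP_de432b_gt
open Set Topology Filter MeasureTheory ProbabilityTheory
open Pool.Agent.H.MP_3020f5_gt hiding Data
open Pool.Agent.H.MP_bb77e0_gt

theorem half_scale {A B : MM} (c : ℝ) (hc : 0 < c) {φ : J → A.X} {ψ : J → B.X} {ε : ℝ}
    (h0 : 0 ≤ ε) (h : Half lam φ ψ ε) :
    Half (X := (scale c hc A).X) (Y := (scale c hc B).X) lam φ ψ (max 1 c * ε) := by
  intro f hf
  have hf' : LipschitzWith 1 fun x : A.X => f x / c := LipschitzWith.of_dist_le_mul fun x y => by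
    have : dist (f x) (f y) ≤ ((1 : NNReal) : ℝ) * (c * @dist A.X _ x y) := hf.dist_le_mul x y
    rw [Real.dist_eq, ← sub_div, abs_div, abs_of_pos hc, div_le_iff₀ hc]
    rw [Real.dist_eq] at this
    linarith
  obtain ⟨g, hg, h⟩ := h _ hf'
  refine ⟨fun y => c * g y, LipschitzWith.of_dist_le_mul fun x y => ?_, ?_⟩
  · show dist (c * g x) (c * g y) ≤ ((1 : NNReal) : ℝ) * (c * @dist B.X _ x y)
    have := hg.dist_le_mul x y
    rw [Real.dist_eq, NNReal.coe_one, one_mul] at this ⊢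
    rw [← mul_sub, abs_mul, abs_of_pos hc]
    exact mul_le_mul_of_nonneg_left this hc.le
  · refine (measureReal_mono fun s hs => ?_).trans (h.trans (le_mul_of_one_le_left h0 (le_max_left _ _)))
    have hs' : max 1 c * ε < |f (φ s) - c * g (ψ s)| := hs
    show ε < |f (φ s) / c - g (ψ s)|
    have e : f (φ s) - c * g (ψ s) = c * (f (φ s) / c - g (ψ s)) := by field_simp
    rw [e, abs_mul, abs_of_pos hc] at hs'
    exact lt_of_mul_lt_mul_left ((mul_le_mul_of_nonneg_right (le_max_right _ _) h0).trans_lt hs') hc.le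

theorem dconc_scale (c : ℝ) (hc : 0 < c) (A B : MM) :
    dconc (scale c hc A) (scale c hc B) ≤ max 1 c * dconc A B := by
  have hm : 0 < max 1 c := lt_max_of_lt_left one_pos
  rw [← div_le_iff₀' hm]
  refine le_dconc fun ε h => ?_
  rw [div_le_iff₀' hm]
  obtain ⟨h0, φ, ψ, h1, h2, h3, h4⟩ := h
  exact dconc_le ⟨by positivity, φ, ψ, h1, h2, half_scale c hc h0 h3, half_scale c hc h0 h4⟩

@[reducible] noncomputable def l1Metric {X : Type} (m : MetricSpace X) : MetricSpace (X × ℝ) where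
  dist x y := m.dist x.1 y.1 + |x.2 - y.2|
  dist_self x := by simp
  dist_comm x y := by rw [m.dist_comm, abs_sub_comm]
  dist_triangle x y z := by linarith [m.dist_triangle x.1 y.1 z.1, abs_sub_le x.2 y.2 z.2]
  eq_of_dist_eq_zero {x y} h := by
    have h1 : 0 ≤ m.dist x.1 y.1 := dist_nonneg
    have h2 := abs_nonneg (x.2 - y.2)
    exact Prod.ext (m.eq_of_dist_eq_zero (by linarith))
      (sub_eq_zero.1 (abs_eq_zero.1 (by linarith)))
  toUniformSpace := instUniformSpaceProd
  uniformity_dist := by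
    rw [(Prod.metricSpaceMax : MetricSpace (X × ℝ)).uniformity_dist]
    apply le_antisymm
    · refine le_iInf₂ fun ε hε => iInf₂_le_of_le (ε / 2) (half_pos hε) (principal_mono.2 ?_)
      intro p hp
      have := max_lt_iff.1 (show max (m.dist p.1.1 p.2.1) |p.1.2 - p.2.2| < ε / 2 from hp)
      show m.dist p.1.1 p.2.1 + |p.1.2 - p.2.2| < ε
      linarith [this.1, this.2]
    · refine le_iInf₂ fun ε hε => iInf₂_le_of_le ε hε (principal_mono.2 ?_)
      intro p hp
      have h : m.dist p.1.1 p.2.1 + |p.1.2 - p.2.2| < ε := hp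
      have h1 : 0 ≤ m.dist p.1.1 p.2.1 := dist_nonneg
      have h2 := abs_nonneg (p.1.2 - p.2.2)
      show max (m.dist p.1.1 p.2.1) |p.1.2 - p.2.2| < ε
      exact max_lt (by linarith) (by linarith)

noncomputable def be : Measure Bool := (2⁻¹ : ENNReal) • (Measure.dirac true + Measure.dirac false)

instance : IsProbabilityMeasure be := ⟨by
  simp only [be, Measure.smul_apply, Measure.add_apply, measure_univ, smul_eq_mul]
  rw [one_add_one_eq_two, ENNReal.inv_mul_cancel two_ne_zero ENNReal.ofNat_ne_top]⟩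

def v (b : ℝ) (u : Bool) : ℝ := if u then b else 0

theorem mv (b : ℝ) : Measurable (v b) := measurable_from_top

instance (b : ℝ) : IsProbabilityMeasure (be.map (v b)) :=
  Measure.isProbabilityMeasure_map (mv b).aemeasurable

noncomputable def Ph (A : MM) (b : ℝ) : MM :=
  @MM.mk (A.X × ℝ) (l1Metric A.ms) (inferInstanceAs (CompleteSpace (A.X × ℝ)))
    (inferInstanceAs (TopologicalSpace.SeparableSpace (A.X × ℝ))) inferInstance
    (inferInstanceAs (BorelSpace (A.X × ℝ))) (A.μ.prod (be.map (v b))) inferInstance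

theorem half_Ph {A B : MM} (b : ℝ) {φ : J → A.X} {ψ : J → B.X} {ε : ℝ} (h0 : 0 ≤ ε)
    (h : Half lam φ ψ ε) : Half (X := (Ph A b).X) (Y := (Ph B b).X) (lam.prod be)
      (Prod.map φ (v b)) (Prod.map ψ (v b)) (2 * ε) := by
  intro f hf
  have hl : ∀ x y : A.X × ℝ, |f x - f y| ≤ dist x.1 y.1 + |x.2 - y.2| := fun x y => by
    have : dist (f x) (f y) ≤ ((1 : NNReal) : ℝ) * (dist x.1 y.1 + |x.2 - y.2|) := hf.dist_le_mul x y
    rwa [Real.dist_eq, NNReal.coe_one, one_mul] at this
  have hf' : ∀ t : ℝ, LipschitzWith 1 fun x : A.X => f (x, t) := fun t =>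
    LipschitzWith.of_dist_le_mul fun x y => by simpa [Real.dist_eq] using hl (x, t) (y, t)
  obtain ⟨g0, hg0, k0⟩ := h _ (hf' 0)
  obtain ⟨g1, hg1, k1⟩ := h _ (hf' b)
  refine ⟨fun y : B.X × ℝ => min (g0 y.1 + |y.2|) (g1 y.1 + |y.2 - b|),
    LipschitzWith.of_dist_le_mul fun x y => ?_, ?_⟩
  · show |_| ≤ ((1 : NNReal) : ℝ) * (@dist B.X _ x.1 y.1 + |x.2 - y.2|)
    have a0 := hg0.dist_le_mul x.1 y.1
    have a1 := hg1.dist_le_mul x.1 y.1
    rw [Real.dist_eq, NNReal.coe_one, one_mul, abs_le] at a0 a1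
    rw [NNReal.coe_one, one_mul]
    have a2 := abs_le.1 (abs_abs_sub_abs_le_abs_sub x.2 y.2)
    have a3 := abs_le.1 (abs_abs_sub_abs_le_abs_sub (x.2 - b) (y.2 - b))
    rw [sub_sub_sub_cancel_right] at a3
    refine (abs_min_sub_min_le_max _ _ _ _).trans (max_le ?_ ?_) <;> rw [abs_le] <;> constructor <;>
      linarith [a0.1, a0.2, a1.1, a1.2, a2.1, a2.2, a3.1, a3.2]
  · refine (measureReal_mono (s₂ := ({s | ε < |f (φ s, 0) - g0 (ψ s)|} ∪
      {s | ε < |f (φ s, b) - g1 (ψ s)|}) ×ˢ (univ : Set Bool)) fun p hp => ⟨?_, trivial⟩).trans ?_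
    · by_contra hc
      simp only [mem_union, mem_setOf_eq, not_or, not_lt] at hc
      have c0 := abs_le.1 hc.1
      have c1 := abs_le.1 hc.2
      have c2 := hl (φ p.1, 0) (φ p.1, b)
      simp only [dist_self, zero_add, zero_sub, abs_neg] at c2
      have c3 := abs_le.1 c2
      have hp' : 2 * ε < |f (φ p.1, v b p.2) - min (g0 (ψ p.1) + |v b p.2|)
        (g1 (ψ p.1) + |v b p.2 - b|)| := hp
      refine not_le.2 hp' ?_
      cases hu : p.2
      · simp only [v, Bool.false_eq_true, if_false, abs_zero, add_zero, zero_sub, abs_neg]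
        rw [abs_le, min_def]
        split_ifs <;> constructor <;> linarith [c0.1, c0.2, c1.1, c1.2, c3.1, c3.2]
      · simp only [v, if_true, sub_self, abs_zero, add_zero]
        rw [abs_le, min_def]
        split_ifs <;> constructor <;> linarith [c0.1, c0.2, c1.1, c1.2, c3.1, c3.2]
    · rw [measureReal_prod_prod, probReal_univ, mul_one]
      linarith [measureReal_union_le (μ := lam) {s | ε < |f (φ s, 0) - g0 (ψ s)|}
        {s | ε < |f (φ s, b) - g1 (ψ s)|}]

theorem dconc_Ph1 (A B : MM) (b : ℝ) : dconc (Ph A b) (Ph B b) ≤ 2 * dconc A B := by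
  rw [← div_le_iff₀' two_pos]
  refine le_dconc fun ε h => ?_
  rw [div_le_iff₀' two_pos]
  obtain ⟨h0, φ, ψ, h1, h2, h3, h4⟩ := h
  refine dconc_le (gc_of (A := Ph A b) (B := Ph B b) (lam.prod be) (Prod.map φ (v b))
    (Prod.map ψ (v b)) (h1.1.prodMap (mv b)) (h2.1.prodMap (mv b)) ?_ ?_ (by positivity)
    (half_Ph b h0 h3) (half_Ph b h0 h4))
  · exact (Measure.map_prod_map lam be h1.1 (mv b)).symm.trans (by rw [h1.2]; rfl)
  · exact (Measure.map_prod_map lam be h2.1 (mv b)).symm.trans (by rw [h2.2]; rfl)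

theorem box_Ph (B : MM) (b b' : ℝ) : box (Ph B b) (Ph B b') ≤ |b - b'| := by
  refine box_le (good_of (A := Ph B b) (B := Ph B b') (B.μ.prod be) (Prod.map id (v b))
    (Prod.map id (v b')) (measurable_id.prodMap (mv b)) (measurable_id.prodMap (mv b')) ?_ ?_ univ
    MeasurableSet.univ (abs_nonneg _) ?_ fun s _ t _ => ?_)
  · exact (Measure.map_prod_map B.μ be measurable_id (mv b)).symm.trans (by rw [Measure.map_id]; rfl)
  · exact (Measure.map_prod_map B.μ be measurable_id (mv b')).symm.trans (by rw [Measure.map_id]; rfl)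
  · rw [probReal_univ]; linarith [abs_nonneg (b - b')]
  · show |@dist B.X _ s.1 t.1 + |v b s.2 - v b t.2| - (@dist B.X _ s.1 t.1 + |v b' s.2 - v b' t.2|)| ≤ _
    rw [add_sub_add_left_eq_sub]
    refine (abs_abs_sub_abs_le_abs_sub _ _).trans ?_
    cases s.2 <;> cases t.2 <;> simp [v, abs_sub_comm]
    rw [neg_add_eq_sub, abs_sub_comm]

theorem dconc_Ph (A B : MM) (b b' : ℝ) : dconc (Ph A b) (Ph B b') ≤ 2 * dconc A B + |b - b'| :=
  (dconc_tri _ (Ph B b) _).trans
    (add_le_add (dconc_Ph1 A B b) ((dconc_le_box _ _).trans (box_Ph B b b')))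

theorem dconc_Ph_pt (A : MM) (b : ℝ) : dconc A pt ≤ dconc (Ph A b) pt := by
  refine le_dconc fun ε h => ?_
  obtain ⟨h0, φ, ψ, h1, h2, h3, -⟩ := h
  refine dconc_le ⟨h0, fun s => (φ s).1, ψ, ⟨measurable_fst.comp h1.1, ?_⟩, h2, fun f hf => ?_,
    fun g hg => ⟨fun _ => g (), (LipschitzWith.const _).weaken zero_le_one, ?_⟩⟩
  · have := Measure.map_map (μ := lam) (g := (Prod.fst : A.X × ℝ → A.X)) measurable_fst h1.1
    refine Eq.trans this.symm
      ((congrArg (Measure.map (Prod.fst : A.X × ℝ → A.X)) h1.2).trans ?_)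
    show (A.μ.prod (be.map (v b))).map Prod.fst = _
    rw [Measure.map_fst_prod, measure_univ, one_smul]
  · refine h3 (fun x : A.X × ℝ => f x.1) (LipschitzWith.of_dist_le_mul fun x y => ?_)
    show _ ≤ ((1 : NNReal) : ℝ) * (@dist A.X _ x.1 y.1 + |x.2 - y.2|)
    have := hf.dist_le_mul x.1 y.1
    rw [NNReal.coe_one, one_mul] at this ⊢
    linarith [abs_nonneg (x.2 - y.2)]
  · have : {s | ε < |g (ψ s) - g ()|} = ∅ := eq_empty_of_forall_notMem fun s hs => by
      have hs' : ε < |g () - g ()| := hs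
      rw [sub_self, abs_zero] at hs'
      linarith
    exact (le_of_eq (by rw [this, measureReal_empty])).trans h0

theorem box_Ph_one : 1 / 4 ≤ box (Ph pt 1) pt := by
  refine le_box fun ε h => ?_
  by_contra hε
  rw [not_le] at hε
  obtain ⟨h0, φ, ψ, h1, h2, S, h3, h4, h5⟩ := h
  have hβ : Measurable fun s => (φ s).2 := measurable_snd.comp h1.1
  have e : lam.map (fun s => (φ s).2) = be.map (v 1) := by
    have := Measure.map_map (μ := lam) (g := (Prod.snd : pt.X × ℝ → ℝ)) measurable_snd h1.1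
    refine Eq.trans this.symm
      ((congrArg (Measure.map (Prod.snd : pt.X × ℝ → ℝ)) h1.2).trans ?_)
    show (pt.μ.prod (be.map (v 1))).map Prod.snd = _
    rw [Measure.map_snd_prod, measure_univ, one_smul]
  have key : ∀ u : Bool, ∃ s ∈ S, (φ s).2 = v 1 u := by
    intro u
    have hU := measurableSet_singleton (v 1 u)
    have hm : (be.map (v 1)).real {v 1 u} = 1 / 2 := by
      rw [map_measureReal_apply (mv 1) hU]
      have : v 1 ⁻¹' {v 1 u} = {u} := by
        ext w; cases u <;> cases w <;> simp [v]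
      rw [this, measureReal_def]
      cases u <;> simp [be]
    rw [← e, map_measureReal_apply hβ hU] at hm
    have := inter_ge lam S (hβ hU)
    have hne : (S ∩ (fun s => (φ s).2) ⁻¹' {v 1 u}).Nonempty := by
      by_contra hn
      rw [not_nonempty_iff_eq_empty.1 hn, measureReal_empty] at this
      linarith
    obtain ⟨s, h1, h2⟩ := hne
    exact ⟨s, h1, h2⟩
  obtain ⟨s, hs, hs'⟩ := key true
  obtain ⟨t, ht, ht'⟩ := key false
  have := h5 s hs t ht
  rw [dist_pt, sub_zero, abs_of_nonneg dist_nonneg] at this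
  have h6 : @dist pt.X _ (φ s).1 (φ t).1 + |(φ s).2 - (φ t).2| ≤ ε := this
  rw [dist_pt, hs', ht'] at h6
  simp [v] at h6
  linarith

theorem y6 (c : ℝ) (hc : 0 < c) (A : MM) (b : ℝ) :
    box (scale c hc (Ph A b)) (Ph (scale c hc A) (c * b)) = 0 := by
  have hm : Measurable fun u : ℝ => c * u := by fun_prop
  refine box_zero (A := scale c hc (Ph A b)) (B := Ph (scale c hc A) (c * b))
    (Prod.map id fun u : ℝ => c * u) (measurable_id.prodMap hm) ?_ fun x y => ?_
  · show (A.μ.prod (be.map (v b))).map (Prod.map id fun u : ℝ => c * u) =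
      A.μ.prod (be.map (v (c * b)))
    rw [← Measure.map_prod_map _ _ measurable_id hm, Measure.map_id, Measure.map_map hm (mv b)]
    congr 2
    funext u; cases u <;> simp [v]
  · show c * (@dist A.X _ x.1 y.1 + |x.2 - y.2|) = c * @dist A.X _ x.1 y.1 + |c * x.2 - c * y.2|
    rw [← mul_sub, abs_mul, abs_of_pos hc, mul_add]

theorem y7 (A : MM) : box A (Ph A 0) = 0 := by
  refine box_zero (A := A) (B := Ph A 0) (fun x => (x, 0)) measurable_prodMk_right ?_ fun x y => ?_
  · show _ = A.μ.prod (be.map (v 0))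
    have : be.map (v 0) = Measure.dirac 0 := by
      rw [show v 0 = fun _ => 0 from funext fun u => by simp [v], Measure.map_const, measure_univ,
        one_smul]
    rw [this, Measure.prod_dirac]
    rfl
  · show dist x y = dist x y + |(0 : ℝ) - 0|
    simp

theorem eqC {A B : MM} (h : box A B = 0) : clsC A = clsC B := Quotient.sound (iso_of_box h)

theorem scC (c : ℝ) (hc : 0 < c) (A : MM) : scM clsC clsC_surj c (clsC A) = clsC (scale c hc A) := by
  rw [scM, dif_pos hc, ← dist_le_zero, dist_clsC]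
  refine (dconc_scale _ _ _ _).trans ?_
  rw [← dist_clsC, mk_rep clsC clsC_surj, dist_self, mul_zero]

noncomputable def PsC (a : XC) (b : ℝ) : XC := clsC (Ph (rep clsC clsC_surj a) b)

theorem psC (A : MM) (b : ℝ) : PsC (clsC A) b = clsC (Ph A b) := by
  rw [PsC, ← dist_le_zero, dist_clsC]
  refine (dconc_Ph1 _ _ _).trans ?_
  rw [← dist_clsC, mk_rep clsC clsC_surj, dist_self, mul_zero]

noncomputable def data : Data XC where
  o := clsC pt
  sc := scM clsC clsC_surj
  Ps := PsC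
  h1 c hc a a' := by
    obtain ⟨A, rfl⟩ := clsC_surj a
    obtain ⟨B, rfl⟩ := clsC_surj a'
    rw [scC c hc, scC c hc]
    exact dconc_scale _ _ _ _
  h2 c hc := by
    rw [scC c hc]; exact eqC (z2 c hc)
  h3 c c' hc hc' a := by
    obtain ⟨A, rfl⟩ := clsC_surj a
    rw [scC c' hc', scC c hc, scC _ (mul_pos hc hc')]
    exact eqC (z3 c c' hc hc' A)
  h3' a := by
    obtain ⟨A, rfl⟩ := clsC_surj a
    rw [scC 1 one_pos]
    exact eqC (z3' A)
  h4 a ε hε := by
    obtain ⟨A, rfl⟩ := clsC_surj a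
    obtain ⟨D, hD, k1, k2⟩ := box_tight A ε hε
    refine ⟨D, hD, fun c hc => ?_, fun c c' hc hc' => ?_⟩
    · rw [scC c hc]; exact (dconc_le_box _ _).trans (k1 c hc)
    · rw [scC c hc, scC c' hc']; exact (dconc_le_box _ _).trans (k2 c c' hc hc')
  h5 a a' b b' := by
    obtain ⟨A, rfl⟩ := clsC_surj a
    obtain ⟨B, rfl⟩ := clsC_surj a'
    rw [psC, psC]
    exact dconc_Ph _ _ _ _
  h6 c hc a b := by
    obtain ⟨A, rfl⟩ := clsC_surj a
    rw [psC, scC c hc, scC c hc, psC]
    exact eqC (y6 c hc A b)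
  h7 a := by
    obtain ⟨A, rfl⟩ := clsC_surj a
    rw [psC]
    exact (eqC (y7 A)).symm
  h8 a b := by
    obtain ⟨A, rfl⟩ := clsC_surj a
    rw [psC]
    exact dconc_Ph_pt A b
  h9 := by
    rw [psC]
    intro h
    have := box_Ph_one
    rw [Iso.box_eq (Quotient.exact h)] at this
    norm_num at this

theorem punctC : ContractibleSpace {a : XC // a ≠ clsC pt} := data.contr'

theorem quotC : ContractibleSpace (Quot fun a b : {a : XC // a ≠ clsC pt} =>
    ∃ (A : MM) (c : ℝ) (hc : 0 < c), a.1 = clsC A ∧ b.1 = clsC (scale c hc A)) := by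
  refine data.contr _ fun a a' => ⟨?_, ?_⟩
  · rintro ⟨A, c, hc, h1, h2⟩
    refine ⟨c, hc, ?_⟩
    rw [h2]
    show _ = scM clsC clsC_surj c a.1
    rw [h1, scC c hc]
  · rintro ⟨c, hc, h⟩
    obtain ⟨A, hA⟩ := clsC_surj a.1
    refine ⟨A, c, hc, hA.symm, ?_⟩
    rw [h, ← hA]
    exact scC c hc A

end Pool.Agent.H.MP_de432b_gt
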